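import Pool.Agent.H529R3.Gap.Main

/-!
# `E = NE` without `P = NP`

If `P^A = NP^A`, then, by padding, `E^A = NE^A`. How often does the conclusion hold without the
hypothesis? For every gauge `f`, the set of the oracles `A` with `E^A = NE^A` and `P^A ≠ NP^A`, and
the set of the oracles with `E^A = NE^A` and `NP^A ⊄ coNP^A/poly`, are null sets for `f` if and only
if for every `ε > 0` there are infinitely many `N` with `f N ≤ (log N) ^ ε`. (The oracles with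
`P^A = NP^A` are a null set for much greater gauges.)
-/

set_option autoImplicit false

namespace Pool.Agent.Results.MP_8c2300_lc.GaugePnpGap

open Pool.Agent.NPC Pool.Agent.H620R2.Gauge Pool.Agent.H622R2.Exp

theorem result (f : ℕ → ℝ) :
    (∀ O : Set Oracle,
      (∀ A : Oracle, (∀ L, InSpace Lin A L → InTime Lin A L) →
        (∃ L, IsNP A L ∧ ¬ WithAdvice (IsNP A) Lᶜ) → A ∈ O) →
      (∀ A ∈ O, ∀ L, InNTime Lin A L → InTime Lin A L) →
      (Null f O ↔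
        ∀ ε : ℝ, 0 < ε → ∃ᶠ N : ℕ in Filter.atTop, f N ≤ (Real.logb 2 N) ^ ε)) ∧
    (Null f {A : Oracle | (∀ L, InTime Lin A L ↔ InNTime Lin A L) ∧
        ¬ ∀ L, IsP A L ↔ IsNP A L} ↔
      ∀ ε : ℝ, 0 < ε → ∃ᶠ N : ℕ in Filter.atTop, f N ≤ (Real.logb 2 N) ^ ε) ∧
    (Null f {A : Oracle | (∀ L, InTime Lin A L ↔ InNTime Lin A L) ∧
        ∃ L, IsNP A L ∧ ¬ WithAdvice (IsNP A) Lᶜ} ↔
      ∀ ε : ℝ, 0 < ε → ∃ᶠ N : ℕ in Filter.atTop, f N ≤ (Real.logb 2 N) ^ ε) := by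
  refine ⟨fun O => H529R3.Gap.gap_np f O, H529R3.Gap.gap_np f _ ?_ fun A hA L => (hA.1 L).2,
    H529R3.Gap.gap_np f _ ?_ fun A hA L => (hA.1 L).2⟩
  · rintro A hA ⟨L, hL, hL'⟩
    refine ⟨fun L => ⟨fun h => h.isNTime, fun h => hA L (h.isSpace good_Lin)⟩, fun h => hL' ?_⟩
    exact ((h L).2 hL).compl.isNP.withAdvice
  · rintro A hA hL
    exact ⟨fun L => ⟨fun h => h.isNTime, fun h => hA L (h.isSpace good_Lin)⟩, hL⟩

end Pool.Agent.Results.MP_8c2300_lc.GaugePnpGap
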