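import Pool.Agent.H622R2.Exp.FinalE

/-!
# How many oracles make `E` and `NE` equal?

For every gauge `f`, the set of the oracles `A` with `E^A = NE^A` is a null set for `f` if and only
if for every `ε > 0` there are infinitely many `N` with `f N ≤ (log N) ^ ε`. The same holds for
every set of oracles between the set of the `A` such that exponential space is contained in
exponential time relative to `A` and the set of the `A` with `NE^A ⊆ E^A`.
-/

set_option autoImplicit false

namespace Pool.Agent.Results.MP_8c2300_lc.GaugeThreshold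

open Pool.Agent.H620R2.Gauge Pool.Agent.H622R2.Exp

theorem result (f : ℕ → ℝ) :
    (∀ O : Set Oracle,
      (∀ A : Oracle, (∀ L, InSpace Lin A L → InTime Lin A L) → A ∈ O) →
      (∀ A ∈ O, ∀ L, InNTime Lin A L → InTime Lin A L) →
      (Null f O ↔
        ∀ ε : ℝ, 0 < ε → ∃ᶠ N : ℕ in Filter.atTop, f N ≤ (Real.logb 2 N) ^ ε)) ∧
    (Null f {A : Oracle | ∀ L, InTime Lin A L ↔ InNTime Lin A L} ↔
      ∀ ε : ℝ, 0 < ε → ∃ᶠ N : ℕ in Filter.atTop, f N ≤ (Real.logb 2 N) ^ ε) :=
  ⟨(resE f).1, (resE f).2.1⟩

end Pool.Agent.Results.MP_8c2300_lc.GaugeThreshold
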